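import Pool.Agent.helper32.NN.Spec

/-!
# Module GRA of project nn: graded algebras
-/

set_option autoImplicit false

open Submodule

noncomputable section

namespace Pool.Agent.NN

universe u v

private lemma GRA_inj (K : Type u) (A : Type v) [Field K] [NonUnitalRing A] [Module K A]
    [IsScalarTower K A A] [SMulCommClass K A A] :
    Function.Injective (Unitization.inrHom K K A) := by
  intro a b h
  exact Unitization.inr_injective h

private lemma GRA_ne (K : Type u) (A : Type v) [Field K] [NonUnitalRing A] [Module K A]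
    [IsScalarTower K A A] [SMulCommClass K A A] (J : Submodule K A) (h : J ≠ ⊥) :
    im K A J ≠ ⊥ := by
  intro h0
  apply h
  rw [Submodule.eq_bot_iff]
  intro x hx
  have h1 : Unitization.inrHom K K A x ∈ im K A J := Submodule.mem_map_of_mem hx
  rw [h0, Submodule.mem_bot] at h1
  exact GRA_inj K A (by rw [h1, map_zero])

private lemma GRA_gr (K : Type u) (A : Type v) [Field K] [NonUnitalRing A] [Module K A]
    [IsScalarTower K A A] [SMulCommClass K A A] (G : Type) [Group G] (𝒜 : G → Submodule K A)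
    (hind : iSupIndep 𝒜) (hsup : ⨆ g, 𝒜 g = ⊤)
    (hmul : ∀ g h, ∀ a ∈ 𝒜 g, ∀ b ∈ 𝒜 h, a * b ∈ 𝒜 (g * h)) :
    Gr K (Unitization K A) (im K A ⊤) G (fun g h => g * h) (fun g => im K A (𝒜 g)) := by
  refine ⟨?_, ?_, ?_⟩
  · intro g
    have h1 := Submodule.disjoint_map (GRA_inj K A) (hind g)
    rw [Submodule.map_iSup] at h1
    refine h1.mono_right (iSup_mono fun j => ?_)
    rw [Submodule.map_iSup]
    exact le_rfl
  · rw [← hsup]
    exact (Submodule.map_iSup _ _).symm
  · intro g h
    rw [Submodule.mul_le]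
    rintro m ⟨a, ha, rfl⟩ n ⟨b, hb, rfl⟩
    refine ⟨a * b, hmul g h a ha b hb, ?_⟩
    exact Unitization.inr_mul K a b

theorem GRA (hTRA : TRA_stmt.{u, v}) (hFIX : FIX_stmt.{u, max u v})
    (hCOA : COA_stmt.{u, max u v}) (hREA : REA_stmt.{u, max u v}) : GRA_stmt.{u, v} := by
  intro K A _ _ _ _ _ hrk hP G _ 𝒜 hind hsup hmul hcase
  by_contra hN
  have hC := (hTRA K A).1 hrk hP hN
  have hGr := GRA_gr K A G 𝒜 hind hsup hmul
  rcases hcase with ⟨H, hH, g, hg, hne⟩ | ⟨φ, g, hφ, hne⟩
  · exact hg (hFIX K (Unitization K A) (im K A ⊤) hC G _ hGr H hH g (GRA_ne K A _ hne))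
  · have hB := hCOA K (Unitization K A) (im K A ⊤) G _ hGr φ
    have h1 := hREA K (Unitization K A) (im K A ⊤) hC _ hB (Multiplicative.toAdd (φ g)) (by
      intro h0
      refine GRA_ne K A _ hne ?_
      rw [eq_bot_iff, ← h0]
      exact le_iSup_of_le g (le_iSup_of_le rfl le_rfl))
    exact hφ (Multiplicative.toAdd.injective h1)

end Pool.Agent.NN
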